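import Pool.Agent.Helper94.YG.All

/-!
# Integral fusion categories of dimension `2m`, `m` odd

For the data of the Drinfeld centre `Z(C)` of an integral fusion category `C` of dimension `2m`, `m` any odd
number, there is an invertible object `x ≠ 1` of `Z(C)` with twist `1` and `x ⊗ x = 1`: it generates a
Tannakian subcategory `Rep(Z/2)` of `Z(C)`.
-/

namespace Pool.Agent.Helper94.Old.TwiceOdd

open Pool.Agent.Helper94.YF Pool.Agent.Helper94.YG

theorem result : ∀ (I : Type) [Fintype I] [DecidableEq I] (Z : CentreData I) (m : ℕ),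
    Z.n = 2 * m → Odd m →
    ∃ x : I, x ≠ Z.o ∧ Z.d x = 1 ∧ Z.th x = 1 ∧ Z.st x = x ∧
      ∀ k, Z.N x x k = if k = Z.o then 1 else 0 :=
  fun I _ _ Z m hn hm => Pool.Agent.Helper94.YG.all I Z m hn hm

end Pool.Agent.Helper94.Old.TwiceOdd
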